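import Pool.Agent.Helper10.GO.GoalsT

/-!
# Project GO, packet GENA: a generic arithmetic progression and its generic point
-/

set_option autoImplicit false

open MvPolynomial Filter Topology Cardinal

noncomputable section

namespace Pool.Agent.Helper81.GO

open Pool.Agent.Helper10.GO

attribute [local instance] MvPolynomial.gradedAlgebra

/-- finite algebraically independent families exist -/
theorem exists_indep (K : Type) [Field K] [NumberField K] [Algebra K ℂ] (ι : Type) [Finite ι] :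
    ∃ g : ι → ℂ, AlgebraicIndependent K g := by
  have hK : #K ≤ ℵ₀ := by
    have h1 : Algebra.IsAlgebraic ℚ K := inferInstance
    have h2 := Algebra.IsAlgebraic.cardinalMk_le_max ℚ K
    have h3 : #ℚ ≤ ℵ₀ := Cardinal.mk_le_aleph0
    exact h2.trans (max_le h3 le_rfl)
  obtain ⟨b, hb⟩ := exists_isTranscendenceBasis K ℂ
  have hC : ℵ₀ < #ℂ := by
    rw [Cardinal.mk_complex]
    exact Cardinal.aleph0_lt_continuum
  have hcard := IsAlgClosed.cardinal_eq_cardinal_transcendence_basis_of_aleph0_lt _ hb hK hC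
  simp only [Cardinal.lift_id] at hcard
  have hinf : Infinite b := by
    rw [← Cardinal.aleph0_le_mk_iff, ← hcard]
    exact hC.le
  obtain ⟨g, hg⟩ : ∃ g : ι → b, Function.Injective g := by
    obtain ⟨n, ⟨e⟩⟩ := Finite.exists_equiv_fin ι
    obtain ⟨h⟩ : Nonempty (ℕ ↪ b) := ⟨Infinite.natEmbedding b⟩
    exact ⟨fun i => h (e i : ℕ), fun i j hij => e.injective (Fin.ext (h.injective hij))⟩
  exact ⟨fun i => ((g i : b) : ℂ), hb.1.comp g hg⟩

/-- a domain algebraic over a subalgebra generated by a finite independent family embeds in `ℂ` -/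
theorem embed_dom (K : Type) [Field K] [NumberField K] [Algebra K ℂ] (A : Type) [CommRing A]
    [IsDomain A] [Algebra K A] (s : Set A) (hs : s.Finite) (hsp : Algebra.adjoin K s = ⊤) :
    ∃ φ : A →ₐ[K] ℂ, Function.Injective φ := by
  have hf : FaithfulSMul K A :=
    (faithfulSMul_iff_algebraMap_injective K A).mpr (algebraMap K A).injective
  have halg : Algebra.IsAlgebraic (Algebra.adjoin K s) A := by
    constructor
    intro a
    have ha : a ∈ Algebra.adjoin K s := by rw [hsp]; exact Algebra.mem_top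
    have h1 : IsAlgebraic (Algebra.adjoin K s)
        (algebraMap (Algebra.adjoin K s) A ⟨a, ha⟩) := isAlgebraic_algebraMap _
    exact h1
  obtain ⟨t, hts, ht⟩ := exists_isTranscendenceBasis_subset (R := K) s
  have htf : Finite t := (hs.subset hts).to_subtype
  obtain ⟨g, hg⟩ := exists_indep K t
  have halg2 := ht.isAlgebraic
  let B := Algebra.adjoin K (Set.range ((↑) : t → A))
  let φ₀ : B →ₐ[K] ℂ := (aeval g).comp ht.1.aevalEquiv.symm.toAlgHom
  have hφ₀ : Function.Injective φ₀ := by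
    intro x y hxy
    apply ht.1.aevalEquiv.symm.injective
    exact hg hxy
  let _ : Algebra B ℂ := φ₀.toRingHom.toAlgebra
  have hmap : ∀ b : B, algebraMap B ℂ b = φ₀ b := fun b => rfl
  have : IsScalarTower K B ℂ := IsScalarTower.of_algebraMap_eq (fun x => (φ₀.commutes x).symm)
  have : FaithfulSMul B ℂ := (faithfulSMul_iff_algebraMap_injective B ℂ).mpr hφ₀
  have : Algebra.IsAlgebraic B A := halg2
  have : FaithfulSMul B A := (faithfulSMul_iff_algebraMap_injective B A).mpr
    Subtype.val_injective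
  let ψ : A →ₐ[B] ℂ := IsAlgClosed.lift
  refine ⟨ψ.restrictScalars K, ?_⟩
  rw [injective_iff_map_eq_zero]
  intro a ha
  by_contra hne
  have h1 := Ideal.comap_ne_bot_of_algebraic_mem (R := B) (I := RingHom.ker ψ.toRingHom) hne
    (by rw [RingHom.mem_ker]; exact ha) (Algebra.IsAlgebraic.isAlgebraic a)
  apply h1
  rw [eq_bot_iff]
  intro b hb
  rw [Ideal.mem_comap, RingHom.mem_ker] at hb
  have h2 : ψ (algebraMap B A b) = 0 := hb
  rw [AlgHom.commutes, hmap] at h2
  rw [Ideal.mem_bot]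
  exact hφ₀ (h2.trans (map_zero φ₀).symm)

theorem embed (K : Type) [Field K] [NumberField K] [Algebra K ℂ] (N : ℕ)
    (P : Ideal (MvPolynomial (Fin (N + 1)) K)) (hP : P.IsPrime) :
    ∃ ξ : Fin (N + 1) → ℂ, ∀ Q : MvPolynomial (Fin (N + 1)) K, aeval ξ Q = 0 ↔ Q ∈ P := by
  have : IsDomain (MvPolynomial (Fin (N + 1)) K ⧸ P) := Ideal.Quotient.isDomain P
  have hsp : Algebra.adjoin K (Set.range fun i : Fin (N + 1) => Ideal.Quotient.mkₐ K P (X i)) = ⊤ := by
    have h1 : (Set.range fun i : Fin (N + 1) => Ideal.Quotient.mkₐ K P (X i)) =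
        Ideal.Quotient.mkₐ K P '' (Set.range (X : Fin (N + 1) → MvPolynomial (Fin (N + 1)) K)) := by
      rw [← Set.range_comp]
      rfl
    rw [h1, ← AlgHom.map_adjoin, MvPolynomial.adjoin_range_X, Algebra.map_top]
    exact (AlgHom.range_eq_top _).2 (Ideal.Quotient.mkₐ_surjective K P)
  obtain ⟨φ, hφ⟩ := embed_dom K (MvPolynomial (Fin (N + 1)) K ⧸ P) _ (Set.finite_range _) hsp
  refine ⟨fun i => φ (Ideal.Quotient.mkₐ K P (X i)), fun Q => ?_⟩
  have h1 : aeval (fun i => φ (Ideal.Quotient.mkₐ K P (X i))) Q =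
      (φ.comp (Ideal.Quotient.mkₐ K P)) Q := by
    conv_rhs => rw [aeval_unique (φ.comp (Ideal.Quotient.mkₐ K P))]
    rfl
  rw [h1, AlgHom.comp_apply]
  constructor
  · intro h
    have h2 : Ideal.Quotient.mkₐ K P Q = 0 := hφ (h.trans (map_zero φ).symm)
    exact Ideal.Quotient.eq_zero_iff_mem.1 h2
  · intro h
    have h2 : Ideal.Quotient.mkₐ K P Q = 0 := Ideal.Quotient.eq_zero_iff_mem.2 h
    rw [h2, map_zero]

section

variable {K : Type} [Field K] [Algebra K ℂ] {N : ℕ}

/-- polynomials vanishing eventually on the progression -/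
def JJ (x : ℕ → Fin (N + 1) → ℂ) (a b : ℕ) : Ideal (MvPolynomial (Fin (N + 1)) K) where
  carrier := {Q | ∀ᶠ n in atTop, aeval (x (a * n + b)) Q = 0}
  add_mem' := by
    intro P Q hP hQ
    filter_upwards [hP, hQ] with n h1 h2
    rw [map_add, h1, h2, add_zero]
  zero_mem' := Eventually.of_forall fun n => map_zero _
  smul_mem' := by
    intro c Q hQ
    filter_upwards [hQ] with n h1
    rw [smul_eq_mul, map_mul, h1, mul_zero]

theorem mem_JJ (x : ℕ → Fin (N + 1) → ℂ) (a b : ℕ) (Q : MvPolynomial (Fin (N + 1)) K) :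
    Q ∈ JJ x a b ↔ ∀ᶠ n in atTop, aeval (x (a * n + b)) Q = 0 := Iff.rfl

/-- the ideal generated by the forms vanishing eventually on the progression -/
def II (x : ℕ → Fin (N + 1) → ℂ) (a b : ℕ) : Ideal (MvPolynomial (Fin (N + 1)) K) :=
  Ideal.span {E | (∃ d, E.IsHomogeneous d) ∧ E ∈ JJ x a b}

theorem mem_II (x : ℕ → Fin (N + 1) → ℂ) (a b d : ℕ) (E : MvPolynomial (Fin (N + 1)) K)
    (hE : E.IsHomogeneous d) : E ∈ II x a b ↔ ∀ᶠ n in atTop, aeval (x (a * n + b)) E = 0 := by
  constructor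
  · intro h
    have h1 : II x a b ≤ JJ (K := K) x a b := Ideal.span_le.2 fun E hE => hE.2
    exact h1 h
  · intro h
    exact Ideal.subset_span ⟨⟨d, hE⟩, h⟩

theorem II_hom (x : ℕ → Fin (N + 1) → ℂ) (a b : ℕ) :
    (II (K := K) x a b).IsHomogeneous (homogeneousSubmodule (Fin (N + 1)) K) := by
  refine Ideal.homogeneous_span _ _ ?_
  rintro E ⟨⟨d, hd⟩, _⟩
  exact ⟨d, hd⟩

theorem II_mono (x : ℕ → Fin (N + 1) → ℂ) (a b p m : ℕ) (hp : 1 ≤ p) :
    II (K := K) x a b ≤ II x (a * p) (a * m + b) := by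
  refine Ideal.span_mono ?_
  rintro E ⟨hd, h⟩
  refine ⟨hd, ?_⟩
  rw [mem_JJ, eventually_atTop] at h ⊢
  obtain ⟨n₀, h⟩ := h
  refine ⟨n₀, fun n hn => ?_⟩
  have h1 := h (p * n + m) (by nlinarith)
  have h2 : a * p * n + (a * m + b) = a * (p * n + m) + b := by ring
  rw [h2]
  exact h1

theorem dich (x : ℕ → Fin (N + 1) → ℂ) (hD : DML K x) (a b : ℕ) (ha : 1 ≤ a)
    (hmax : ∀ a' b' : ℕ, 1 ≤ a' → ¬ II (K := K) x a b < II x a' b') (d : ℕ)
    (E : MvPolynomial (Fin (N + 1)) K) (hE : E.IsHomogeneous d)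
    (hfr : ∃ᶠ n in atTop, aeval (x (a * n + b)) E = 0) : E ∈ II x a b := by
  obtain ⟨p, hp, n₀, hper⟩ := hD d E hE
  rw [frequently_atTop] at hfr
  obtain ⟨n₁, hn₁, h1⟩ := hfr n₀
  have h2 : ∀ k : ℕ, aeval (x (a * n₁ + b + k * p)) E = 0 := by
    intro k
    induction k with
    | zero => simpa using h1
    | succ k ih =>
      have h3 := (hper (a * n₁ + b + k * p) (by nlinarith)).1 ih
      have h4 : a * n₁ + b + (k + 1) * p = a * n₁ + b + k * p + p := by ring
      rw [h4]
      exact h3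
  have h5 : E ∈ II x (a * p) (a * n₁ + b) := by
    rw [mem_II x _ _ d E hE]
    refine Eventually.of_forall fun n => ?_
    have h6 : a * p * n + (a * n₁ + b) = a * n₁ + b + (a * n) * p := by ring
    rw [h6]
    exact h2 _
  have h7 := II_mono (K := K) x a b p n₁ hp
  have h8 : II (K := K) x a b = II x (a * p) (a * n₁ + b) := by
    by_contra hne
    exact hmax (a * p) (a * n₁ + b) (Nat.mul_pos ha hp) (lt_of_le_of_ne h7 hne)
  rw [h8]
  exact h5

end

theorem gena : S_GENA := by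
  intro K _ _ _ N x hx hD
  -- a maximal ideal of the family
  obtain ⟨I, ⟨⟨a, b⟩, ha, rfl⟩, hmax⟩ := (wellFounded_gt (α := Ideal (MvPolynomial (Fin (N + 1)) K))).has_min
    ((fun q : ℕ × ℕ => II (K := K) x q.1 q.2) '' {q | 1 ≤ q.1}) ⟨_, (1, 0), le_refl 1, rfl⟩
  simp only [Set.mem_ofPred_eq] at ha
  have hmax' : ∀ a' b' : ℕ, 1 ≤ a' → ¬ II (K := K) x a b < II x a' b' := by
    intro a' b' ha'
    exact hmax _ ⟨(a', b'), ha', rfl⟩
  have hd := dich x hD a b ha hmax'
  have hne : II (K := K) x a b ≠ ⊤ := by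
    intro h
    have h1 : (1 : MvPolynomial (Fin (N + 1)) K) ∈ II x a b := by rw [h]; trivial
    rw [mem_II x a b 0 1 (isHomogeneous_one _ _)] at h1
    obtain ⟨n, hn⟩ := h1.exists
    rw [map_one] at hn
    exact one_ne_zero hn
  have hP : (II (K := K) x a b).IsPrime := by
    refine (II_hom x a b).isPrime_of_homogeneous_mem_or_mem hne ?_
    rintro E E' ⟨d, hE⟩ ⟨d', hE'⟩ hEE
    by_contra hcon
    push Not at hcon
    obtain ⟨c1, c2⟩ := hcon
    have e1 : ∀ᶠ n in atTop, aeval (x (a * n + b)) E ≠ 0 := by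
      by_contra h
      rw [not_eventually] at h
      exact c1 (hd d E hE (h.mono fun n hn => by simpa using hn))
    have e2 : ∀ᶠ n in atTop, aeval (x (a * n + b)) E' ≠ 0 := by
      by_contra h
      rw [not_eventually] at h
      exact c2 (hd d' E' hE' (h.mono fun n hn => by simpa using hn))
    have e3 := (mem_II x a b (d + d') (E * E') (IsHomogeneous.mul hE hE')).1 hEE
    obtain ⟨n, h1, h2, h3⟩ := (e1.and (e2.and e3)).exists
    rw [map_mul] at h3
    exact (mul_ne_zero h1 h2) h3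
  obtain ⟨ξ, hξ⟩ := embed K N (II x a b) hP
  refine ⟨a, b, ξ, ha, ?_, ?_⟩
  · intro h0
    have h1 : ∀ i, ∀ᶠ n in atTop, aeval (x (a * n + b)) (X i : MvPolynomial (Fin (N + 1)) K) = 0 := by
      intro i
      rw [← mem_II x a b 1 _ (isHomogeneous_X K i), ← hξ, aeval_X, h0]
      rfl
    obtain ⟨n, hn⟩ := (eventually_all.2 h1).exists
    apply hx (a * n + b)
    funext i
    have := hn i
    rw [aeval_X] at this
    exact this
  · intro d E hE
    refine ⟨fun h => (mem_II x a b d E hE).1 ((hξ E).1 h), fun h => ?_⟩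
    by_contra hcon
    rw [not_eventually] at hcon
    exact h ((hξ E).2 (hd d E hE (hcon.mono fun n hn => by simpa using hn)))

end Pool.Agent.Helper81.GO
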