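import Pool.Agent.Helper10.GO.GoalsA

/-!
# Project GO, packet HDF: the difference of the Hilbert function
-/

set_option autoImplicit false

open MvPolynomial Filter Topology

noncomputable section

namespace Pool.Agent.Helper81.GO

open Pool.Agent.Helper10.GO

attribute [local instance] MvPolynomial.weightedGradedAlgebra

variable {K : Type} [Field K] {r N : ℕ}

theorem decomp_eq (Q : MvPolynomial (Fin r × Fin (N + 1)) K) (β : Fin r → ℕ) :
    (DirectSum.decompose (mh K r N) Q β : MvPolynomial (Fin r × Fin (N + 1)) K) =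
      weightedHomogeneousComponent (bw r N) β Q :=
  MvPolynomial.decompose'_apply K (bw r N) Q β

theorem MH_iff (I : Ideal (MvPolynomial (Fin r × Fin (N + 1)) K)) :
    MH I ↔ I.IsHomogeneous (mh K r N) := by
  constructor
  · intro h β Q hQ
    rw [decomp_eq]
    exact h Q hQ β
  · intro h Q hQ β
    rw [← decomp_eq]
    exact h β hQ

/-- the linear form -/
def lf (j : Fin r) (c : Fin (N + 1) → K) : MvPolynomial (Fin r × Fin (N + 1)) K :=
  ∑ i, C (c i) * X (j, i)

theorem lf_mem (j : Fin r) (c : Fin (N + 1) → K) : lf j c ∈ mh K r N (Pi.single j 1) := by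
  unfold lf
  refine Submodule.sum_mem _ fun i _ => ?_
  exact (isWeightedHomogeneous_X K (bw r N) (j, i)).C_mul (c i)

theorem fin_set (β : Fin r → ℕ) :
    {d : Fin r × Fin (N + 1) →₀ ℕ | Finsupp.weight (bw r N) d = β}.Finite := by
  refine (Set.finite_Iic (Finsupp.equivFunOnFinite.symm (fun p : Fin r × Fin (N + 1) => β p.1))).subset ?_
  intro d hd
  simp only [Set.mem_ofPred_eq] at hd
  simp only [Set.mem_Iic]
  intro p
  simp only [Finsupp.equivFunOnFinite_symm_apply_apply]
  rw [← hd, Finsupp.weight_apply, Finsupp.sum_fintype _ _ (by intro i; simp), Finset.sum_apply]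
  refine le_trans ?_ (Finset.single_le_sum (f := fun p' => (d p' • bw r N p') p.1)
    (fun _ _ => Nat.zero_le _) (Finset.mem_univ p))
  simp [bw]

theorem finite_mh (β : Fin r → ℕ) : Module.Finite K (mh K r N β) := by
  unfold mh
  rw [weightedHomogeneousSubmodule_eq_finsupp_supported]
  have := (fin_set (N := N) β).to_subtype
  exact Module.Finite.of_basis (basisRestrictSupport K {d | Finsupp.weight (bw r N) d = β})

theorem HF_top (β : Fin r → ℕ) : HF (⊤ : Ideal (MvPolynomial (Fin r × Fin (N + 1)) K)) β = 0 := by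
  unfold HF
  have : (Submodule.restrictScalars K (⊤ : Ideal (MvPolynomial (Fin r × Fin (N + 1)) K)) ⊓ mh K r N β :
      Submodule K (MvPolynomial (Fin r × Fin (N + 1)) K)) = mh K r N β := by
    rw [Submodule.restrictScalars_top, top_inf_eq]
  rw [this, sub_self]

theorem MH_sup (J : Ideal (MvPolynomial (Fin r × Fin (N + 1)) K)) (hJ : MH J) (j : Fin r)
    (c : Fin (N + 1) → K) : MH (J ⊔ Ideal.span {lf j c}) := by
  rw [MH_iff] at hJ ⊢
  refine hJ.sup ?_
  refine Ideal.homogeneous_span _ _ ?_
  intro x hx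
  rw [Set.mem_singleton_iff] at hx
  subst hx
  exact ⟨_, lf_mem j c⟩

theorem inter_eq (J : Ideal (MvPolynomial (Fin r × Fin (N + 1)) K)) (hJ : MH J) (j : Fin r)
    (c : Fin (N + 1) → K) (β : Fin r → ℕ) :
    (Submodule.restrictScalars K (J ⊔ Ideal.span {lf j c}) ⊓ mh K r N (β + Pi.single j 1) :
      Submodule K (MvPolynomial (Fin r × Fin (N + 1)) K)) =
    (Submodule.restrictScalars K J ⊓ mh K r N (β + Pi.single j 1)) ⊔
      (mh K r N β).map (LinearMap.mulLeft K (lf j c)) := by
  apply le_antisymm
  · rintro Q ⟨hQ, hd⟩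
    simp only [Submodule.restrictScalars_mem, SetLike.mem_coe] at hQ hd
    rw [Submodule.mem_sup] at hQ
    obtain ⟨q, hq, y, hy, rfl⟩ := hQ
    rw [Ideal.mem_span_singleton'] at hy
    obtain ⟨a, rfl⟩ := hy
    have e1 : q + a * lf j c = weightedHomogeneousComponent (bw r N) (β + Pi.single j 1) q +
        lf j c * weightedHomogeneousComponent (bw r N) β a := by
      have h1 : weightedHomogeneousComponent (bw r N) (β + Pi.single j 1) (q + a * lf j c) =
        q + a * lf j c := weightedHomogeneousComponent_eq_self hd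
      rw [← h1, map_add]
      congr 1
      rw [← decomp_eq, mul_comm a, ← decomp_eq, add_comm β]
      exact DirectSum.coe_decompose_mul_add_of_left_mem (mh K r N) (lf_mem j c)
    rw [e1]
    refine Submodule.add_mem_sup ⟨hJ q hq _, weightedHomogeneousComponent_mem _ _ _⟩ ?_
    exact ⟨_, weightedHomogeneousComponent_mem _ _ _, rfl⟩
  · refine sup_le (inf_le_inf_right _ ?_) ?_
    · exact fun x hx => Ideal.mem_sup_left hx
    · rintro _ ⟨p, hp, rfl⟩
      refine ⟨?_, ?_⟩
      · exact Ideal.mem_sup_right (Ideal.mul_mem_right _ _ (Ideal.mem_span_singleton_self _))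
      · show lf j c * p ∈ mh K r N (β + Pi.single j 1)
        rw [add_comm β]
        exact IsWeightedHomogeneous.mul (lf_mem j c) hp

theorem hdf : S_HDF := by
  intro K _ r N J hJ j c hc
  refine ⟨MH_sup J hJ j c, ?_⟩
  intro β
  show HF J (β + Pi.single j 1) - HF J β = HF (J ⊔ Ideal.span {lf j c}) (β + Pi.single j 1)
  have hc' : ∀ Q, lf j c * Q ∈ J → Q ∈ J := hc
  by_cases h0 : lf j c = 0
  · have hJt : J = ⊤ := by
      rw [Ideal.eq_top_iff_one]
      apply hc'
      rw [h0, zero_mul]
      exact J.zero_mem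
    subst hJt
    rw [top_sup_eq, HF_top, HF_top, sub_self]
  · have hinj : Function.Injective (LinearMap.mulLeft K (lf j c)) := by
      intro x y hxy
      exact mul_left_cancel₀ h0 hxy
    have f1 := finite_mh (K := K) (N := N) β
    have f2 := finite_mh (K := K) (N := N) (β + Pi.single j 1)
    have f3 : FiniteDimensional K (Submodule.restrictScalars K J ⊓ mh K r N (β + Pi.single j 1) :
        Submodule K (MvPolynomial (Fin r × Fin (N + 1)) K)) :=
      Submodule.finiteDimensional_of_le inf_le_right
    have f4 : FiniteDimensional K ((mh K r N β).map (LinearMap.mulLeft K (lf j c))) := inferInstance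
    have hinf : (Submodule.restrictScalars K J ⊓ mh K r N (β + Pi.single j 1)) ⊓
        (mh K r N β).map (LinearMap.mulLeft K (lf j c)) =
        (Submodule.restrictScalars K J ⊓ mh K r N β).map (LinearMap.mulLeft K (lf j c)) := by
      apply le_antisymm
      · rintro _ ⟨⟨h1, _⟩, p, hp, rfl⟩
        exact ⟨p, ⟨hc' p h1, hp⟩, rfl⟩
      · rintro _ ⟨p, ⟨h1, h2⟩, rfl⟩
        refine ⟨⟨J.mul_mem_left _ h1, ?_⟩, p, h2, rfl⟩
        show lf j c * p ∈ mh K r N (β + Pi.single j 1)
        rw [add_comm β]
        exact IsWeightedHomogeneous.mul (lf_mem j c) h2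
    have hd := Submodule.finrank_sup_add_finrank_inf_eq
      (Submodule.restrictScalars K J ⊓ mh K r N (β + Pi.single j 1))
      ((mh K r N β).map (LinearMap.mulLeft K (lf j c)))
    rw [hinf, ← inter_eq J hJ j c β,
      ← (Submodule.equivMapOfInjective _ hinj (mh K r N β)).finrank_eq,
      ← (Submodule.equivMapOfInjective _ hinj (Submodule.restrictScalars K J ⊓ mh K r N β)).finrank_eq] at hd
    unfold HF
    omega

end Pool.Agent.Helper81.GO
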